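import Pool.Agent.Helper47.HR.Defs

/-! Module B of the counterexample to the Hermite ring conjecture (MP_062089_al): the dual basis of
`K[z]/(a)` and the closed formula for `Xi`. -/

set_option autoImplicit false

namespace Pool.Agent.Helper47.HR

open Polynomial Matrix

section
variable {K : Type*} [Field K]

private lemma B_Rs_add (x y q : K[X]) : Rs (x + y) q = Rs x q + Rs y q := by
  unfold Rs
  rw [Polynomial.add_mod, coeff_add, add_div]

private lemma B_Rs_mul (q h : K[X]) : Rs (q * h) q = 0 := by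
  unfold Rs
  rw [EuclideanDomain.mod_eq_zero.2 (dvd_mul_right q h)]
  simp

private lemma B_Rs_add_mul (x q h : K[X]) : Rs (x + q * h) q = Rs x q := by
  rw [B_Rs_add, B_Rs_mul, add_zero]

private lemma B_Rs_small (w q : K[X]) (hw : ∀ k, q.natDegree ≤ k → w.coeff k = 0) :
    Rs w q = w.coeff (q.natDegree - 1) / q.leadingCoeff := by
  rcases eq_or_ne q 0 with rfl | hq
  · have : w = 0 := by
      ext k
      simpa using hw k (by simp)
    rw [this]
    simp [Rs]
  · unfold Rs
    rw [(Polynomial.mod_eq_self_iff hq).2]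
    rw [degree_eq_natDegree hq]
    exact (Polynomial.degree_lt_iff_coeff_zero w q.natDegree).2 fun m hm => hw m hm

private lemma B_coeff_divX (a : K[X]) (m j : ℕ) : (divX^[m] a).coeff j = a.coeff (j + m) := by
  induction m generalizing j with
  | zero => rfl
  | succ m ih =>
    rw [Function.iterate_succ_apply', coeff_divX, ih]
    congr 1
    ring

private lemma B_Rs_C_mul (k : K) (x q : K[X]) : Rs (C k * x) q = k * Rs x q := by
  rcases eq_or_ne q 0 with rfl | hq
  · simp [Rs]
  have hx : x = x % q + q * (x / q) := by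
    rw [add_comm]
    exact (EuclideanDomain.div_add_mod x q).symm
  have h1 : Rs (C k * x) q = Rs (C k * (x % q)) q := by
    conv_lhs => rw [hx]
    rw [show C k * (x % q + q * (x / q)) = C k * (x % q) + q * (C k * (x / q)) by ring,
      B_Rs_add_mul]
  have hdeg : ∀ j, q.natDegree ≤ j → (x % q).coeff j = 0 := by
    intro j hj
    refine coeff_eq_zero_of_degree_lt (lt_of_lt_of_le (Polynomial.degree_mod_lt x hq) ?_)
    rw [degree_eq_natDegree hq]
    exact_mod_cast hj
  rw [h1, B_Rs_small (C k * (x % q)) q (fun j hj => by rw [coeff_C_mul, hdeg j hj, mul_zero]),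
    coeff_C_mul, mul_div_assoc]
  rfl

/-- `Rs` as an additive map -/
private noncomputable def B_RsHom (q : K[X]) : K[X] →+ K where
  toFun x := Rs x q
  map_zero' := by simp [Rs]
  map_add' x y := B_Rs_add x y q

private lemma B_Rs_sum {ι : Type*} (s : Finset ι) (f : ι → K[X]) (q : K[X]) :
    Rs (∑ i ∈ s, f i) q = ∑ i ∈ s, Rs (f i) q := map_sum (B_RsHom q) f s

/-- the low part of `a` -/
private lemma B_low (a : K[X]) (s k : ℕ) :
    (a - X ^ s * divX^[s] a).coeff k = if k < s then a.coeff k else 0 := by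
  rw [coeff_sub, coeff_X_pow_mul']
  split_ifs with h1 h2 h2
  · omega
  · rw [B_coeff_divX, Nat.sub_add_cancel h1, sub_self]
  · rw [sub_zero]
  · omega

/-- B1 -/
theorem Rs_dual (a : K[X]) {i l : ℕ} (hi : i < a.natDegree)
    (hl : l < a.natDegree) :
    Rs (X ^ i * divX^[l + 1] a) a = if i = l then 1 else 0 := by
  have ha : a ≠ 0 := by
    rintro rfl
    simp at hi
  rcases le_or_gt i l with hil | hil
  · rw [B_Rs_small]
    · rw [coeff_X_pow_mul', if_pos (by omega), B_coeff_divX]
      split_ifs with h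
      · subst h
        rw [show a.natDegree - 1 - i + (i + 1) = a.natDegree by omega, coeff_natDegree,
          div_self (leadingCoeff_ne_zero.2 ha)]
      · rw [coeff_eq_zero_of_natDegree_lt (by omega), zero_div]
    · intro k hk
      rw [coeff_X_pow_mul', if_pos (by omega), B_coeff_divX]
      exact coeff_eq_zero_of_natDegree_lt (by omega)
  · rw [if_neg (by omega)]
    have h1 : X ^ i * divX^[l + 1] a =
        -(X ^ (i - l - 1) * (a - X ^ (l + 1) * divX^[l + 1] a)) + a * X ^ (i - l - 1) := by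
      have : (X : K[X]) ^ i = X ^ (i - l - 1) * X ^ (l + 1) := by
        rw [← pow_add]
        congr 1
        omega
      rw [this]
      ring
    rw [h1, B_Rs_add_mul, B_Rs_small]
    · rw [coeff_neg, coeff_X_pow_mul', if_pos (by omega), B_low, if_neg (by omega), neg_zero,
        zero_div]
    · intro k hk
      rw [coeff_neg, coeff_X_pow_mul', if_pos (by omega), B_low, if_neg (by omega), neg_zero]

variable [CharP K 2]

/-- the key identity -/
private lemma B_key (a : K[X]) {l m : ℕ} (hl : l < a.natDegree) (hm : m < a.natDegree) :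
    Rs (X ^ m * (divX^[l + 1] a) ^ 2) a = if m ≤ 2 * l + 1 then a.coeff (2 * l + 1 - m) else 0 := by
  have ha : a ≠ 0 := by
    rintro rfl
    simp at hl
  set r : K[X] := a - X ^ (l + 1) * divX^[l + 1] a with hr
  have hrdeg : r.natDegree ≤ l := by
    rw [natDegree_le_iff_coeff_eq_zero]
    intro k hk
    rw [hr, B_low, if_neg (by omega)]
  have hr2 : (r ^ 2).natDegree ≤ 2 * l := by
    refine natDegree_pow_le.trans ?_
    gcongr
  have hsq : X ^ (2 * l + 2) * (divX^[l + 1] a) ^ 2 = a ^ 2 + r ^ 2 := by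
    have h1 : X ^ (l + 1) * divX^[l + 1] a = a - r := by rw [hr]; ring
    have h2 : X ^ (2 * l + 2) * (divX^[l + 1] a) ^ 2 = (X ^ (l + 1) * divX^[l + 1] a) ^ 2 := by
      ring
    rw [h2, h1, CharTwo.sub_eq_add, CharTwo.add_sq]
  split_ifs with h
  · obtain ⟨s, hs⟩ : ∃ s, s = 2 * l + 2 - m := ⟨_, rfl⟩
    have hs1 : 1 ≤ s := by omega
    set T : K[X] := a - X ^ s * divX^[s] a with hT
    have hTdeg : T.natDegree ≤ s - 1 := by
      rw [natDegree_le_iff_coeff_eq_zero]
      intro k hk
      rw [hT, B_low, if_neg (by omega)]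
    set W : K[X] := X ^ m * (divX^[l + 1] a) ^ 2 + a * divX^[s] a with hW
    have hXW : X ^ s * W = a * T + r ^ 2 := by
      have h1 : X ^ s * W = X ^ (2 * l + 2) * (divX^[l + 1] a) ^ 2 + a * (X ^ s * divX^[s] a) := by
        rw [hW, show 2 * l + 2 = s + m by omega, pow_add]
        ring
      rw [h1, hsq, show X ^ s * divX^[s] a = a - T by rw [hT]; ring, CharTwo.sub_eq_add]
      have h2 : a ^ 2 + r ^ 2 + a * (a + T) = (a ^ 2 + a ^ 2) + (a * T + r ^ 2) := by ring
      rw [h2, CharTwo.add_self_eq_zero, zero_add]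
    have hcW : ∀ k, W.coeff k = (a * T).coeff (k + s) + (r ^ 2).coeff (k + s) := by
      intro k
      have := congrArg (fun p => coeff p (k + s)) hXW
      simp only [coeff_add] at this
      rw [← this, mul_comm, coeff_mul_X_pow]
    have hW0 : ∀ k, a.natDegree ≤ k → W.coeff k = 0 := by
      intro k hk
      rw [hcW, coeff_eq_zero_of_natDegree_lt (lt_of_le_of_lt (natDegree_mul_le_of_le le_rfl hTdeg)
        (by omega)), coeff_eq_zero_of_natDegree_lt (lt_of_le_of_lt hr2 (by omega)), add_zero]
    have hsplit : X ^ m * (divX^[l + 1] a) ^ 2 = W + a * divX^[s] a := by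
      rw [hW, add_assoc, CharTwo.add_self_eq_zero, add_zero]
    rw [hsplit, B_Rs_add_mul, B_Rs_small W a hW0, hcW,
      coeff_eq_zero_of_natDegree_lt (p := r ^ 2) (lt_of_le_of_lt hr2 (by omega)), add_zero,
      show a.natDegree - 1 + s = a.natDegree + (s - 1) by omega,
      coeff_mul_add_eq_of_natDegree_le le_rfl hTdeg, hT, B_low, if_pos (by omega), coeff_natDegree,
      mul_div_cancel_left₀ _ (leadingCoeff_ne_zero.2 ha)]
    congr 1
    omega
  · have h1 : X ^ m * (divX^[l + 1] a) ^ 2 =
        X ^ (m - 2 * l - 2) * r ^ 2 + a * (X ^ (m - 2 * l - 2) * a) := by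
      have : (X : K[X]) ^ m = X ^ (m - 2 * l - 2) * X ^ (2 * l + 2) := by
        rw [← pow_add]
        congr 1
        omega
      rw [this, mul_assoc, hsq]
      ring
    have hc : ∀ k, a.natDegree - 1 ≤ k → (X ^ (m - 2 * l - 2) * r ^ 2).coeff k = 0 := by
      intro k hk
      rw [coeff_X_pow_mul']
      split_ifs with h2
      · exact coeff_eq_zero_of_natDegree_lt (lt_of_le_of_lt hr2 (by omega))
      · rfl
    rw [h1, B_Rs_add_mul, B_Rs_small _ _ (fun k hk => hc k (by omega)), hc _ le_rfl, zero_div]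

variable (D : K →+ K)

omit [CharP K 2] in
private lemma B_coeff_mapD (f : K[X]) (i : ℕ) : (mapD D f).coeff i = D (f.coeff i) := by
  unfold mapD
  rw [finsetSum_coeff]
  simp only [coeff_monomial]
  rw [Finset.sum_ite_eq' (Finset.range (f.natDegree + 1)) i (fun j => D (f.coeff j))]
  split_ifs with h
  · rfl
  · rw [Finset.mem_range] at h
    rw [coeff_eq_zero_of_natDegree_lt (by omega), map_zero]

omit [CharP K 2] in
private lemma B_mapD_add (f g : K[X]) : mapD D (f + g) = mapD D f + mapD D g := by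
  ext i
  rw [coeff_add, B_coeff_mapD, B_coeff_mapD, B_coeff_mapD, coeff_add, map_add]

omit [CharP K 2] in
private lemma B_dl_add (f g : K[X]) : dl D (f + g) = dl D f + dl D g := by
  unfold dl
  rw [B_mapD_add, derivative_add]

private lemma B_mapD_sq (hD : ∀ r x, D (r ^ 2 * x) = r ^ 2 * D x) (h a : K[X]) :
    mapD D (a ^ 2 * h) = a ^ 2 * mapD D h := by
  induction a using Polynomial.induction_on' with
  | add p q hp hq =>
    rw [CharTwo.add_sq, add_mul, B_mapD_add, hp, hq, add_mul]
  | monomial n r =>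
    ext i
    rw [monomial_pow, B_coeff_mapD, mul_comm, mul_comm (monomial (n * 2) (r ^ 2)) (mapD D h)]
    rw [← C_mul_X_pow_eq_monomial, ← mul_assoc, ← mul_assoc, coeff_mul_X_pow', coeff_mul_X_pow']
    split_ifs with h1
    · rw [coeff_mul_C, coeff_mul_C, mul_comm, hD, B_coeff_mapD, mul_comm]
    · rw [map_zero]

private lemma B_dl_sq (hD : ∀ r x, D (r ^ 2 * x) = r ^ 2 * D x) (h a : K[X]) :
    dl D (a ^ 2 * h) = a ^ 2 * dl D h := by
  unfold dl
  rw [B_mapD_sq D hD, derivative_mul, derivative_pow]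
  simp only [Nat.cast_ofNat, CharTwo.two_eq_zero]
  simp

/-- the polynomial `Θ` -/
private noncomputable def B_Th (a b : K[X]) : K[X] :=
  ∑ l ∈ Finset.range a.natDegree, C (D (Rs (b * (divX^[l + 1] a) ^ 2) a)) * X ^ (2 * l)

omit [CharP K 2] in
private lemma B_Th_add (a b b' : K[X]) : B_Th D a (b + b') = B_Th D a b + B_Th D a b' := by
  unfold B_Th
  rw [← Finset.sum_add_distrib]
  refine Finset.sum_congr rfl fun l _ => ?_
  rw [add_mul b b', B_Rs_add, map_add, C_add, add_mul]

omit [CharP K 2] in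
private lemma B_Th_mul (a h : K[X]) : B_Th D a (a * h) = 0 := by
  unfold B_Th
  refine Finset.sum_eq_zero fun l _ => ?_
  rw [mul_assoc, B_Rs_mul, map_zero, C_0, zero_mul]

private lemma B_Th_monomial (a : K[X]) {m : ℕ} (hm : m < a.natDegree) (β : K) :
    B_Th D a (monomial m β) = dl D (a * monomial m β) := by
  have hkey : ∀ l ∈ Finset.range a.natDegree, Rs (monomial m β * (divX^[l + 1] a) ^ 2) a =
      (a * monomial m β).coeff (2 * l + 1) := by
    intro l hl
    rw [← C_mul_X_pow_eq_monomial, mul_assoc, B_Rs_C_mul, B_key a (Finset.mem_range.1 hl) hm,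
      ← mul_assoc, coeff_mul_X_pow']
    split_ifs
    · rw [coeff_mul_C, mul_comm]
    · rw [mul_zero]
  have hT : B_Th D a (monomial m β) = ∑ l ∈ Finset.range a.natDegree,
      C (D ((a * monomial m β).coeff (2 * l + 1))) * X ^ (2 * l) := by
    unfold B_Th
    refine Finset.sum_congr rfl fun l hl => ?_
    rw [hkey l hl]
  rw [hT]
  ext k
  unfold dl
  rw [coeff_derivative, B_coeff_mapD, finsetSum_coeff]
  simp only [coeff_C_mul_X_pow]
  rcases Nat.even_or_odd' k with ⟨l, rfl | rfl⟩
  · have h1 : ((2 * l : ℕ) : K) + 1 = 1 := by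
      push_cast
      rw [CharTwo.two_eq_zero, zero_mul, zero_add]
    rw [h1, mul_one]
    have h2 : ∀ x ∈ Finset.range a.natDegree, (if 2 * l = 2 * x then
        D ((a * monomial m β).coeff (2 * x + 1)) else 0) =
        if l = x then D ((a * monomial m β).coeff (2 * x + 1)) else 0 := by
      intro x _
      refine if_congr ?_ rfl rfl
      omega
    rw [Finset.sum_congr rfl h2, Finset.sum_ite_eq]
    split_ifs with h
    · rfl
    · rw [Finset.mem_range, not_lt] at h
      rw [coeff_eq_zero_of_natDegree_lt, map_zero]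
      refine lt_of_le_of_lt (natDegree_mul_le_of_le le_rfl (natDegree_monomial_le β)) ?_
      omega
  · have h1 : ((2 * l + 1 : ℕ) : K) + 1 = 0 := by
      push_cast
      rw [CharTwo.two_eq_zero, zero_mul, zero_add, CharTwo.add_self_eq_zero]
    rw [h1, mul_zero]
    refine Finset.sum_eq_zero fun x _ => ?_
    rw [if_neg (by omega)]

/-- B2 -/
theorem closed_formula (hD : ∀ r x, D (r ^ 2 * x) = r ^ 2 * D x) (a b c : K[X]) (ha : a ≠ 0) :
    ∑ l ∈ Finset.range a.natDegree,
      Rs (c.divX * X ^ (2 * l)) a * D (Rs (b * (divX^[l + 1] a) ^ 2) a) = Xi D a b c := by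
  have hL : ∑ l ∈ Finset.range a.natDegree,
      Rs (c.divX * X ^ (2 * l)) a * D (Rs (b * (divX^[l + 1] a) ^ 2) a) =
      Rs (c.divX * B_Th D a b) a := by
    unfold B_Th
    rw [Finset.mul_sum, B_Rs_sum]
    refine Finset.sum_congr rfl fun l _ => ?_
    rw [mul_left_comm, B_Rs_C_mul, mul_comm]
  rw [hL]
  unfold Xi
  have hb : b = b % a + a * (b / a) := by
    rw [add_comm]
    exact (EuclideanDomain.div_add_mod b a).symm
  -- the remainder
  have hrem : B_Th D a (b % a) = dl D (a * (b % a)) := by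
    rcases Nat.eq_zero_or_pos a.natDegree with h0 | h0
    · have : b % a = 0 := by
        have h1 := Polynomial.degree_mod_lt b ha
        rw [degree_eq_natDegree ha, h0] at h1
        exact degree_eq_bot.1 (Nat.WithBot.lt_zero_iff.1 (by exact_mod_cast h1))
      rw [this, mul_zero]
      have h2 := B_Th_mul D a 0
      rw [mul_zero] at h2
      rw [h2]
      have h3 := B_dl_sq D hD 0 0
      simp only [mul_zero, ne_eq, OfNat.ofNat_ne_zero, not_false_eq_true, zero_pow, zero_mul] at h3
      exact h3.symm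
    · have hnd : (b % a).natDegree < a.natDegree :=
        natDegree_mod_lt b (by omega)
      have hThs : ∀ (s : Finset ℕ) (f : ℕ → K[X]), B_Th D a (∑ i ∈ s, f i) =
          ∑ i ∈ s, B_Th D a (f i) := by
        intro s f
        have h2 := B_Th_mul D a 0
        rw [mul_zero] at h2
        exact map_sum (⟨⟨B_Th D a, h2⟩, B_Th_add D a⟩ : K[X] →+ K[X]) f s
      have hdls : ∀ (s : Finset ℕ) (f : ℕ → K[X]), dl D (∑ i ∈ s, f i) =
          ∑ i ∈ s, dl D (f i) := by
        intro s f
        have h3 := B_dl_sq D hD 0 0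
        simp only [mul_zero, ne_eq, OfNat.ofNat_ne_zero, not_false_eq_true, zero_pow,
          zero_mul] at h3
        exact map_sum (⟨⟨dl D, h3⟩, B_dl_add D⟩ : K[X] →+ K[X]) f s
      rw [as_sum_range' (b % a) a.natDegree hnd, Finset.mul_sum, hThs, hdls]
      refine Finset.sum_congr rfl fun m hm => ?_
      exact B_Th_monomial D a (Finset.mem_range.1 hm) _
  have h1 : B_Th D a b = dl D (a * (b % a)) := by
    conv_lhs => rw [hb]
    rw [B_Th_add, B_Th_mul, add_zero, hrem]
  have h2 : dl D (a * b) = dl D (a * (b % a)) + a * (a * dl D (b / a)) := by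
    conv_lhs => rw [hb]
    rw [mul_add, B_dl_add, ← mul_assoc a a, ← pow_two, B_dl_sq D hD]
    ring
  rw [h1, h2, mul_add, show c.divX * (a * (a * dl D (b / a))) =
    a * (c.divX * (a * dl D (b / a))) by ring, B_Rs_add_mul]

end

end Pool.Agent.Helper47.HR
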